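import Pool.Agent.N659.HB.Stm10
import Pool.Agent.N364.SD.OD

/-!
# SN/ODU (helper570): diagonal parts around a symbol, general law
(adaptation of `Pool/Agent/N364/SD/OD.lean`)
-/

set_option autoImplicit false

namespace Pool.Agent.N570.SN.ODU

open MeasureTheory Filter Pool.Agent.W792.LL Pool.Agent.W792.WA Pool.Agent.N659.HB
open Pool.Agent.N364.SD.OD (dia_bd diff_form bd_form rp1 rp2)
open scoped Topology ENNReal

noncomputable section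

/-- The transform is measurable. -/
theorem hm_meas (μ : Measure ℝ) [IsProbabilityMeasure μ] : Measurable (hm μ) := by
  unfold hm
  have h : StronglyMeasurable (Function.uncurry fun (ζ : ℂ) (t : ℝ) => 1 / ((t : ℂ) - ζ)) := by
    apply Measurable.stronglyMeasurable
    unfold Function.uncurry
    simp only
    fun_prop
  exact (h.integral_prod_right (ν := μ)).measurable

theorem main : S_GR → S_RK → S_DIA → S_OPR → S_SYMB → S_KB2U → S_KB3U → S_ODU := by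
  intro hGR hRK hD hO hS hK2 hK3 d A C₁ c
  obtain ⟨C₂, γ₂, hC₂, hγ₂, hK2⟩ := hK2 d A C₁ c
  obtain ⟨C₃, γ₃, hC₃, hγ₃, hK3⟩ := hK3 d A C₁ c
  refine ⟨C₃ + 2 * C₂ + 4 * C₁ ^ 2, min γ₂ γ₃, by nlinarith [sq_nonneg C₁], lt_min hγ₂ hγ₃, ?_⟩
  intro μ _ w y₀ hUL γ hγ hγ' ζ hζ hyy hy2 Y u u'
  have hK2 := hK2 μ w y₀ hUL γ hγ (hγ'.trans (min_le_left _ _)) ζ hζ hyy hy2
  have hK3 := hK3 μ w y₀ hUL γ hγ (hγ'.trans (min_le_right _ _)) ζ hζ hyy hy2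
  have hC₁ : 1 ≤ C₁ := hUL.hC
  have hU2 := hUL.u2
  have hy : 0 < ζ.im := hUL.hy.trans_le hyy
  have hw1 : 1 ≤ w := by linarith [hUL.hA, hUL.hw]
  have hw : 0 < w := by linarith
  obtain ⟨hRm, -, -, hRb, hR⟩ := hRK d w γ ζ hw hγ.le hy
  have hX : ∀ k, (xs d γ ζ k).im ≤ -ζ.im := by
    intro k
    have : xs d γ ζ k = ((γ * lap d k : ℝ) : ℂ) - ζ := rfl
    rw [this, Complex.sub_im, Complex.ofReal_im]
    linarith
  obtain ⟨-, hGm⟩ := hGR d w ζ.im (xs d γ ζ) hw.le hy hX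
  have hZ : ∀ (x : Fin d → ℤ) (v : (Fin d → ℤ) → ℝ), ζ.im ≤ (Zx w γ ζ x v).im := by
    intro x v
    obtain ⟨h1, h2, h3, -⟩ := hR x v
    rw [h3]
    have : (1 : ℝ) ≤ ∑' a, ‖Qx w γ ζ x a v‖ ^ 2 := by
      have := h2.le_tsum x (fun _ _ => by positivity)
      rw [h1] at this
      simpa using this
    nlinarith
  -- the two families
  have hgb : ∀ (v : (Fin d → ℤ) → ℝ) (a : Fin d → ℤ), ‖ge w γ ζ v a a‖ ≤ 1 / ζ.im :=
    fun v a => (hRb v a a).2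
  have hgm : ∀ a : Fin d → ℤ, Measurable fun v => ge w γ ζ v a a := fun a => hGm (dl a) a
  have hhb : ∀ (v : (Fin d → ℤ) → ℝ) (a : Fin d → ℤ),
      ‖hm μ (Zx w γ ζ a v)‖ ≤ C₁ * ζ.im ^ (-(1 / 16) : ℝ) := by
    intro v a
    refine le_trans ?_ (hU2 (Zx w γ ζ a v) ζ.im hy hy2 (hZ a v))
    unfold hm
    refine (norm_integral_le_integral_norm _).trans (le_of_eq ?_)
    refine integral_congr_ae (Eventually.of_forall fun t => ?_)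
    simp
  have hhm : ∀ a : Fin d → ℤ, Measurable fun v => hm μ (Zx w γ ζ a v) :=
    fun a => (hm_meas μ).comp (hRm a)
  have hy16 : 0 < ζ.im ^ (-(1 / 16) : ℝ) := Real.rpow_pos_of_pos hy _
  have hB : 0 < C₁ * ζ.im ^ (-(1 / 16) : ℝ) := mul_pos (by linarith) hy16
  have hyi : 0 < 1 / ζ.im := by positivity
  set T : ℝ := γ ^ (1 / 2 : ℝ) / ζ.im + w * ζ.im ^ (-(15 / 16) : ℝ) with hT
  have hγp : 0 ≤ γ ^ (1 / 2 : ℝ) / ζ.im := div_nonneg (Real.rpow_nonneg hγ.le _) hy.le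
  have hyp : 0 < ζ.im ^ (-(15 / 16) : ℝ) := Real.rpow_pos_of_pos hy _
  have hT0 : 0 ≤ T := by positivity
  have hTy : ζ.im ^ (-(15 / 16) : ℝ) ≤ T := by rw [hT]; nlinarith
  have hdiag : ∀ a : Fin d → ℤ, ‖(∫ v, ge w γ ζ v a a * ge w γ ζ v a a ∂(Pn (μ) (Fin d → ℤ)))
      - ∫ v, hm μ (Zx w γ ζ a v) * hm μ (Zx w γ ζ a v) ∂(Pn (μ) (Fin d → ℤ))‖
      ≤ C₂ * ζ.im ^ (-(3 / 4) : ℝ) + (C₁ * ζ.im ^ (-(1 / 16) : ℝ)) ^ 2 := by
    intro a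
    refine (norm_sub_le _ _).trans (add_le_add ?_ ?_)
    · have h1 := hK2 a
      have h2 : ENNReal.ofReal ‖∫ v, ge w γ ζ v a a * ge w γ ζ v a a ∂(Pn (μ) (Fin d → ℤ))‖
          ≤ ENNReal.ofReal (C₂ * ζ.im ^ (-(3 / 4) : ℝ)) := by
        refine le_trans ?_ h1
        refine le_trans ?_ (ENNReal.le_tsum a)
        exact ENNReal.le_tsum (f := fun x => ENNReal.ofReal
          ‖∫ v, ge w γ ζ v a x * ge w γ ζ v x a ∂(Pn (μ) (Fin d → ℤ))‖) a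
      refine (ENNReal.ofReal_le_ofReal_iff ?_).1 h2
      have := Real.rpow_pos_of_pos hy (-(3 / 4))
      positivity
    · have h1 : ∀ v, ‖hm μ (Zx w γ ζ a v) * hm μ (Zx w γ ζ a v)‖
          ≤ (C₁ * ζ.im ^ (-(1 / 16) : ℝ)) ^ 2 := by
        intro v
        rw [norm_mul, sq]
        exact mul_le_mul (hhb v a) (hhb v a) (norm_nonneg _) hB.le
      refine (norm_integral_le_of_norm_le_const (Eventually.of_forall h1)).trans ?_
      simp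
  set K : ℝ := C₃ * T + (C₂ * ζ.im ^ (-(3 / 4) : ℝ) + (C₁ * ζ.im ^ (-(1 / 16) : ℝ)) ^ 2) with hKdef
  have hy34 : 0 < ζ.im ^ (-(3 / 4) : ℝ) := Real.rpow_pos_of_pos hy _
  have hK0 : 0 ≤ K := by positivity
  have hrow : ∀ (s : Finset (Fin d → ℤ)), ∀ a ∈ s,
      ∑ b ∈ s, ‖(∫ v, ge w γ ζ v a a * ge w γ ζ v b b ∂(Pn (μ) (Fin d → ℤ)))
        - ∫ v, hm μ (Zx w γ ζ a v) * hm μ (Zx w γ ζ b v) ∂(Pn (μ) (Fin d → ℤ))‖ ≤ K := by
    intro s a ha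
    rw [← Finset.add_sum_erase s _ ha, hKdef, add_comm]
    refine add_le_add ?_ (hdiag a)
    have h1 := hK3 a
    have h2 : ENNReal.ofReal (∑ b ∈ s.erase a,
        ‖(∫ v, ge w γ ζ v a a * ge w γ ζ v b b ∂(Pn (μ) (Fin d → ℤ)))
          - ∫ v, hm μ (Zx w γ ζ a v) * hm μ (Zx w γ ζ b v) ∂(Pn (μ) (Fin d → ℤ))‖)
        ≤ ENNReal.ofReal (C₃ * T) := by
      rw [ENNReal.ofReal_sum_of_nonneg (fun _ _ => norm_nonneg _)]
      refine le_trans ?_ h1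
      refine le_trans ?_ (ENNReal.sum_le_tsum (s.erase a))
      refine Finset.sum_le_sum fun b hb => ?_
      rw [if_neg (Finset.ne_of_mem_erase hb)]
    exact (ENNReal.ofReal_le_ofReal_iff (by positivity)).1 h2
  have hA := diff_form (P := Pn (μ) (Fin d → ℤ)) hD hO hS (fun v a => ge w γ ζ v a a)
    (fun v a => hm μ (Zx w γ ζ a v)) (max (1 / ζ.im) (C₁ * ζ.im ^ (-(1 / 16) : ℝ)))
    (lt_max_of_lt_left hyi) (fun v x => (hgb v x).trans (le_max_left _ _)) hgm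
    (fun v x => (hhb v x).trans (le_max_right _ _)) hhm K hK0 hrow Y u u'
  have hBd : ‖∫ v, inner ℂ u' (dia (fun a => hm μ (Zx w γ ζ a v))
      (opr Y (dia (fun a => hm μ (Zx w γ ζ a v)) u))) ∂(Pn (μ) (Fin d → ℤ))‖
      ≤ (C₁ * ζ.im ^ (-(1 / 16) : ℝ)) ^ 2 * ‖Y‖ * (‖u'‖ * ‖u‖) := by
    refine (norm_integral_le_of_norm_le_const (Eventually.of_forall fun v =>
      bd_form hD hO _ _ hB (hhb v) Y u u')).trans ?_
    simp
  have hsum : ‖∫ v, inner ℂ u' (dg w γ ζ v (opr Y (dg w γ ζ v u))) ∂(Pn (μ) (Fin d → ℤ))‖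
      ≤ (K + (C₁ * ζ.im ^ (-(1 / 16) : ℝ)) ^ 2) * ‖Y‖ * (‖u'‖ * ‖u‖) := by
    have h1 := norm_le_norm_sub_add (∫ v, inner ℂ u' (dg w γ ζ v (opr Y (dg w γ ζ v u)))
      ∂(Pn (μ) (Fin d → ℤ))) (∫ v, inner ℂ u' (dia (fun a => hm μ (Zx w γ ζ a v))
      (opr Y (dia (fun a => hm μ (Zx w γ ζ a v)) u))) ∂(Pn (μ) (Fin d → ℤ)))
    refine h1.trans ?_
    have h2 := add_le_add hA hBd
    refine le_trans h2 (le_of_eq ?_)
    ring
  refine hsum.trans ?_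
  have hfin : K + (C₁ * ζ.im ^ (-(1 / 16) : ℝ)) ^ 2 ≤ (C₃ + 2 * C₂ + 4 * C₁ ^ 2) * T := by
    have e1 := rp1 hy hy2
    have e2 := rp2 hy hy2
    have e3 : C₂ * ζ.im ^ (-(3 / 4) : ℝ) ≤ 2 * C₂ * T := by
      calc C₂ * ζ.im ^ (-(3 / 4) : ℝ) ≤ C₂ * (2 * ζ.im ^ (-(15 / 16) : ℝ)) :=
            mul_le_mul_of_nonneg_left e1 (by linarith)
        _ = 2 * C₂ * ζ.im ^ (-(15 / 16) : ℝ) := by ring
        _ ≤ _ := mul_le_mul_of_nonneg_left hTy (by linarith)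
    have e4 : (C₁ * ζ.im ^ (-(1 / 16) : ℝ)) ^ 2 ≤ 2 * C₁ ^ 2 * T := by
      calc (C₁ * ζ.im ^ (-(1 / 16) : ℝ)) ^ 2 = C₁ ^ 2 * (ζ.im ^ (-(1 / 16) : ℝ)) ^ 2 := by ring
        _ ≤ C₁ ^ 2 * (2 * ζ.im ^ (-(15 / 16) : ℝ)) := mul_le_mul_of_nonneg_left e2 (by positivity)
        _ = 2 * C₁ ^ 2 * ζ.im ^ (-(15 / 16) : ℝ) := by ring
        _ ≤ _ := mul_le_mul_of_nonneg_left hTy (by positivity)
    rw [hKdef]
    nlinarith
  gcongr

end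

end Pool.Agent.N570.SN.ODU
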